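import Pool.Agent.Y787.AS.Var

/-!
# Points with coordinates in a finitely generated group on an arbitrary variety

Consequences of the theorems of `Pool.Agent.Y787.AS` (starting library, helper787) in the form used by the
hand-ins: counting with a condition at the point, growth of the number of points, families with parameters.
-/

set_option autoImplicit false

namespace Pool.Agent.H53.AS

open MvPolynomial Module
open Pool.Agent.W254.PA (Hyp)
open Pool.Agent.Y787.AS

section rational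

variable {E : Type} [Field E] [CharZero E]

theorem cast_pt {m N : ℕ} (l : Fin N → E) (A : Fin m → Fin N → ℤ) :
    (fun i => ∑ j, algebraMap ℚ E ((A i j : ℤ) : ℚ) * l j) = fun i => ∑ j, (A i j : E) * l j := by
  funext i
  simp

/-- the number of the integer matrices of height at most `H` which give points of the variety through which
no rational translate of dimension greater than `ρ` passes -/
theorem count_pt [Uncountable E] {Lt : Submodule ℚ E} (hL : Hyp Lt) {m N r ρ : ℕ} (hρ : ρ ≤ m)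
    (l : Fin N → E) (hl : ∀ j, l j ∈ Lt) (hli : LinearIndependent ℚ l)
    (F : Fin r → MvPolynomial (Fin m) E) :
    ∃ κ : ℕ, ∀ H : ℕ, 1 ≤ H →
      Set.ncard {A : Fin m → Fin N → ℤ | (∀ i j, |A i j| ≤ H) ∧
        ((∀ s, eval (fun i => ∑ j, (A i j : E) * l j) (F s) = 0) ∧
          ∀ R : Submodule ℚ (Fin m → ℚ), Trans ℚ F (fun i => ∑ j, (A i j : E) * l j) R →
            finrank ℚ R ≤ ρ)} ≤ κ * H ^ (ρ * N + (m - ρ) * (m - 1)) := by
  classical
  obtain ⟨κ, hκ⟩ := Pool.Agent.Y787.HS.count_gen (K := ℚ) (d := ρ * N + (m - ρ) * (m - 1))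
    (σ := Fin m × Fin N)
    {x | (∀ s, eval (fun i => ∑ j, algebraMap ℚ E (x (i, j)) * l j) (F s) = 0) ∧
      ∀ R : Submodule ℚ (Fin m → ℚ),
        Trans ℚ F (fun i => ∑ j, algebraMap ℚ E (x (i, j)) * l j) R → finrank ℚ R ≤ ρ} (by
      intro φ
      obtain ⟨P, h1, h2⟩ := var_coord hL wts_pt hρ l hl hli F φ
      exact ⟨P, h1, fun x hx => h2 (fun i j => x (i, j)) hx.1 hx.2⟩)
  refine ⟨κ, fun H hH => ?_⟩
  rw [Set.ncard_eq_toFinset_card _ (box_finite' H _)]
  let g : (Fin m → Fin N → ℤ) → (Fin m × Fin N → ℤ) := fun A p => A p.1 p.2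
  have hg : Function.Injective g := by
    intro A A' h
    funext i j
    exact congrFun h (i, j)
  rw [← Finset.card_image_of_injective _ hg]
  refine hκ H hH _ ?_
  intro a ha
  obtain ⟨A, hA, rfl⟩ := Finset.mem_image.1 ha
  rw [Set.Finite.mem_toFinset] at hA
  obtain ⟨h1, h2, h3⟩ := hA
  refine ⟨fun p => h1 _ _, fun s => ?_, fun R hR => h3 R ?_⟩
  · change eval (fun i => ∑ j, algebraMap ℚ E ((A i j : ℤ) : ℚ) * l j) (F s) = 0
    rw [cast_pt]
    exact h2 s
  · have h4 : Trans ℚ F (fun i => ∑ j, algebraMap ℚ E ((A i j : ℤ) : ℚ) * l j) R := hR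
    rwa [cast_pt] at h4

/-- the growth of the number of points is `H ^ (ρ N)` up to the factor `H ^ ((m - ρ) (m - 1))`, if `ρ` is the
greatest dimension of a rational translate through one of the points in the variety -/
theorem growth [Uncountable E] {Lt : Submodule ℚ E} (hL : Hyp Lt) {m N r ρ : ℕ}
    (l : Fin N → E) (hl : ∀ j, l j ∈ Lt) (hli : LinearIndependent ℚ l)
    (F : Fin r → MvPolynomial (Fin m) E)
    (hmax : ∀ (A : Fin m → Fin N → ℤ) (R : Submodule ℚ (Fin m → ℚ)),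
      Trans ℚ F (fun i => ∑ j, (A i j : E) * l j) R → finrank ℚ R ≤ ρ)
    (hex : ∃ (A : Fin m → Fin N → ℤ) (R : Submodule ℚ (Fin m → ℚ)),
      Trans ℚ F (fun i => ∑ j, (A i j : E) * l j) R ∧ finrank ℚ R = ρ) :
    ∃ κ : ℕ, 1 ≤ κ ∧ ∀ H : ℕ, κ ≤ H →
      H ^ (ρ * N) ≤ κ * Set.ncard {A : Fin m → Fin N → ℤ | (∀ i j, |A i j| ≤ H) ∧
        ∀ s, eval (fun i => ∑ j, (A i j : E) * l j) (F s) = 0} ∧
      Set.ncard {A : Fin m → Fin N → ℤ | (∀ i j, |A i j| ≤ H) ∧
        ∀ s, eval (fun i => ∑ j, (A i j : E) * l j) (F s) = 0} ≤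
          κ * H ^ (ρ * N + (m - ρ) * (m - 1)) := by
  obtain ⟨A₀, R₀, hT, hR⟩ := hex
  have hρ : ρ ≤ m := by
    rw [← hR]
    refine (Submodule.finrank_le R₀).trans ?_
    rw [finrank_fintype_fun_eq_card, Fintype.card_fin]
  obtain ⟨κ₁, h1⟩ := var_upper hL hρ l hl hli F hmax
  obtain ⟨κ₂, h2, h3⟩ := var_lower l F A₀ R₀ hT
  refine ⟨κ₁ + κ₂, by omega, fun H hH => ⟨?_, ?_⟩⟩
  · have h4 := h3 H (by omega)
    rw [hR] at h4
    refine h4.trans (Nat.mul_le_mul_right _ (by omega))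
  · refine (h1 H (by omega)).trans (Nat.mul_le_mul_right _ (by omega))

end rational

section families

variable {k Cc : Type} [Field k] [Field Cc] [Algebra k Cc] [CharZero k] [CharZero Cc]

/-- coordinates, families with parameters -/
theorem fam_coord' {Lt : Submodule k Cc} (hL : Hyp Lt) (hw : Wts' k Cc) {m N r τ ρ : ℕ}
    (hρ : ρ ≤ m) (l : Fin N → Cc) (hl : ∀ j, l j ∈ Lt) (hli : LinearIndependent k l)
    (F : Fin r → MvPolynomial (Fin m ⊕ Fin τ) Cc)
    (φ : Fin (ρ * N + (m - ρ) * (m - 1) + τ + 1) → ((Fin m × Fin N → k) →ₗ[k] k)) :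
    ∃ P : MvPolynomial (Fin (ρ * N + (m - ρ) * (m - 1) + τ + 1)) k, P ≠ 0 ∧
      ∀ (b : Fin m → Fin N → k) (t : Fin τ → k),
      (∀ s, eval (Sum.elim (fun i => ∑ j, algebraMap k Cc (b i j) * l j)
        (fun a => algebraMap k Cc (t a))) (F s) = 0) →
      ¬ Big k F ρ (fun i => ∑ j, algebraMap k Cc (b i j) * l j) t →
      eval (fun i => φ i (fun p => b p.1 p.2)) P = 0 := by
  rcases Nat.lt_or_ge (N + 1) m with h | h
  · obtain ⟨P, h1, h2⟩ := trivial_rel (by
      rw [finrank_fintype_fun_eq_card, Fintype.card_prod, Fintype.card_fin, Fintype.card_fin]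
      obtain ⟨c, rfl⟩ : ∃ c, m = ρ + c := ⟨m - ρ, by omega⟩
      rw [Nat.add_sub_cancel_left]
      have : c * N ≤ c * (ρ + c - 1) := Nat.mul_le_mul_left _ (by omega)
      have e1 : (ρ + c) * N = ρ * N + c * N := by ring
      omega) φ
    exact ⟨P, h1, fun b _ _ _ => h2 _⟩
  · exact fam_coord (m := m) (N := N) (ρ := ρ) (τ := τ)
      (q := ρ * N + (m - ρ) * (m - 1) + τ + 1) hL hw l hl hli F (expo hρ h) φ

/-- dimension, families with parameters -/
theorem fam_dim' {Lt : Submodule k Cc} (hL : Hyp Lt) (hw : Wts' k Cc) (W : Submodule k Cc)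
    [FiniteDimensional k W] (hW : W ≤ Lt) {m r τ ρ : ℕ} (hρ : ρ ≤ m)
    (F : Fin r → MvPolynomial (Fin m ⊕ Fin τ) Cc)
    (φ : Fin (ρ * finrank k W + (m - ρ) * (m - 1) + τ + 1) → ((Fin m → W) →ₗ[k] k)) :
    ∃ P : MvPolynomial (Fin (ρ * finrank k W + (m - ρ) * (m - 1) + τ + 1)) k, P ≠ 0 ∧
      ∀ (y : Fin m → W) (t : Fin τ → k),
      (∀ s, eval (Sum.elim (fun i => (y i : Cc)) (fun a => algebraMap k Cc (t a))) (F s) = 0) →
      ¬ Big k F ρ (fun i => (y i : Cc)) t → eval (fun i => φ i y) P = 0 := by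
  obtain ⟨P, h1, h2⟩ := fam_coord' hL hw hρ
    (fun j => (Module.finBasis k W j : Cc)) (fun j => hW (Module.finBasis k W j).2)
    ((Module.finBasis k W).linearIndependent.map' W.subtype
      (LinearMap.ker_eq_bot.2 W.subtype_injective)) F (fun i => φ i ∘ₗ mkT m)
  refine ⟨P, h1, fun y t hy ht => ?_⟩
  have h3 : (fun i => ∑ j, algebraMap k Cc ((Module.finBasis k W).repr (y i) j) *
      (Module.finBasis k W j : Cc)) = fun i => (y i : Cc) := by
    funext i
    have h4 := congrArg (fun w : W => (w : Cc)) ((Module.finBasis k W).sum_repr (y i))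
    simp only [Submodule.coe_sum, Submodule.coe_smul, Algebra.smul_def] at h4
    exact h4
  have h5 : mkT (k := k) (W := W) m (fun p => (Module.finBasis k W).repr (y p.1) p.2) = y := by
    funext i
    exact (Module.finBasis k W).sum_repr (y i)
  have h6 := h2 (fun i j => (Module.finBasis k W).repr (y i) j) t (by
    rw [h3]; exact hy) (by rw [h3]; exact ht)
  simp only [LinearMap.comp_apply, h5] at h6
  exact h6

/-- counting, families with parameters -/
theorem count_fam {Lt : Submodule k Cc} (hL : Hyp Lt) (hw : Wts' k Cc) {m N r τ ρ : ℕ}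
    (hρ : ρ ≤ m) (l : Fin N → Cc) (hl : ∀ j, l j ∈ Lt) (hli : LinearIndependent k l)
    (F : Fin r → MvPolynomial (Fin m ⊕ Fin τ) Cc) :
    ∃ κ : ℕ, ∀ H : ℕ, 1 ≤ H →
      Set.ncard {A : Fin m → Fin N → ℤ | (∀ i j, |A i j| ≤ H) ∧ ∃ t : Fin τ → k,
        (∀ s, eval (Sum.elim (fun i => ∑ j, (A i j : Cc) * l j)
          (fun a => algebraMap k Cc (t a))) (F s) = 0) ∧
        ¬ Big k F ρ (fun i => ∑ j, (A i j : Cc) * l j) t} ≤
      κ * H ^ (ρ * N + (m - ρ) * (m - 1) + τ) := by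
  classical
  have hcast : ∀ A : Fin m → Fin N → ℤ,
      (fun i => ∑ j, algebraMap k Cc ((A i j : ℤ) : k) * l j) =
      fun i => ∑ j, (A i j : Cc) * l j := by
    intro A
    funext i
    simp
  obtain ⟨κ, hκ⟩ := Pool.Agent.Y787.HS.count_gen (K := k) (d := ρ * N + (m - ρ) * (m - 1) + τ)
    (σ := Fin m × Fin N)
    {x | ∃ t : Fin τ → k, (∀ s, eval (Sum.elim (fun i => ∑ j, algebraMap k Cc (x (i, j)) * l j)
        (fun a => algebraMap k Cc (t a))) (F s) = 0) ∧
      ¬ Big k F ρ (fun i => ∑ j, algebraMap k Cc (x (i, j)) * l j) t} (by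
      intro φ
      obtain ⟨P, h1, h2⟩ := fam_coord' hL hw hρ l hl hli F φ
      refine ⟨P, h1, ?_⟩
      rintro x ⟨t, hx1, hx2⟩
      exact h2 (fun i j => x (i, j)) t hx1 hx2)
  refine ⟨κ, fun H hH => ?_⟩
  rw [Set.ncard_eq_toFinset_card _ (box_finite' H _)]
  let g : (Fin m → Fin N → ℤ) → (Fin m × Fin N → ℤ) := fun A p => A p.1 p.2
  have hg : Function.Injective g := by
    intro A A' h
    funext i j
    exact congrFun h (i, j)
  rw [← Finset.card_image_of_injective _ hg]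
  refine hκ H hH _ ?_
  intro a ha
  obtain ⟨A, hA, rfl⟩ := Finset.mem_image.1 ha
  rw [Set.Finite.mem_toFinset] at hA
  obtain ⟨h1, t, h2, h3⟩ := hA
  refine ⟨fun p => h1 _ _, t, fun s => ?_, ?_⟩
  · change eval (Sum.elim (fun i => ∑ j, algebraMap k Cc ((A i j : ℤ) : k) * l j)
      (fun a => algebraMap k Cc (t a))) (F s) = 0
    rw [hcast]
    exact h2 s
  · change ¬ Big k F ρ (fun i => ∑ j, algebraMap k Cc ((A i j : ℤ) : k) * l j) t
    rw [hcast]
    exact h3

end families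

end Pool.Agent.H53.AS
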